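import Pool.Agent.H76.SW.CT

/-!
Board stw_modules, row CPA: later definitions of a program do not change the earlier letters.
-/

namespace Pool.Agent.H1.SW

open Pool.Agent.H76.SW

private theorem foldl_snd (n : ℕ) (l : List UqC) (x : GrC × ℕ) :
    (l.foldl (fun x Q => (addRel n x.1 x.2 Q, x.2 + 1)) x).2 = x.2 + l.length := by
  induction l generalizing x with
  | nil => simp
  | cons Q l ih =>
    rw [List.foldl_cons, ih]
    simp only [List.length_cons]
    omega

private theorem mem_addRel (n : ℕ) (E : GrC) (l : ℕ) (Q : UqC) (e : (ℕ × ℕ) × ℕ)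
    (he : e.1.2 ≠ l) : e ∈ addRel n E l Q ↔ e ∈ E := by
  unfold addRel
  rw [List.mem_append]
  constructor
  · rintro (h | h)
    · exact h
    · exfalso
      rw [List.mem_flatMap] at h
      obtain ⟨u, -, h⟩ := h
      rw [List.mem_flatMap] at h
      obtain ⟨v, -, h⟩ := h
      split_ifs at h
      · rw [List.mem_singleton] at h
        exact he (by rw [h])
      · simp at h
  · exact fun h => Or.inl h

private theorem foldl_mem (n : ℕ) (l : List UqC) (x : GrC × ℕ) (e : (ℕ × ℕ) × ℕ)
    (he : e.1.2 < x.2) :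
    e ∈ (l.foldl (fun x Q => (addRel n x.1 x.2 Q, x.2 + 1)) x).1 ↔ e ∈ x.1 := by
  induction l generalizing x with
  | nil => simp
  | cons Q l ih =>
    rw [List.foldl_cons, ih _ (by simpa using Nat.lt_succ_of_lt he)]
    exact mem_addRel n x.1 x.2 Q e (Nat.ne_of_lt he)

theorem pf_CPA : V_PA := by
  intro n a E pre new e he
  unfold progE
  rw [List.foldl_append]
  apply foldl_mem
  rw [foldl_snd]
  exact he

end Pool.Agent.H1.SW
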