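import Pool.Agent.H76.SW.T

/-! S5: reachability in a symmetric system and in its canonical database (MP_d2582e_lc). -/

namespace Pool.Agent.H1.SW

open Pool.Agent.H76.SW Relation

theorem pf_S5 : U_s5_lift := by
  intro A P Q gs hs tr x y s s'
  -- silent steps in both directions
  have hsil : ∀ a b : P, gs a none b → gs b none a := fun a b h => hs a none b h
  -- equal classes give a silent path
  have key : ∀ a b : P, cl gs a = cl gs b → ∀ s : Q, rho gs tr (a, s) (b, s) := by
    intro a b hab s
    have h := Quot.eqvGen_exact hab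
    have both : ∀ a b : P, EqvGen (fun x y : P => gs x none y) a b →
        rho gs tr (a, s) (b, s) ∧ rho gs tr (b, s) (a, s) := by
      intro a b h
      induction h with
      | rel a b h =>
        exact ⟨ReflTransGen.single (Or.inl ⟨h, rfl⟩),
          ReflTransGen.single (Or.inl ⟨hsil _ _ h, rfl⟩)⟩
      | refl a => exact ⟨ReflTransGen.refl, ReflTransGen.refl⟩
      | symm a b _ ih => exact ⟨ih.2, ih.1⟩
      | trans a b c _ _ ih1 ih2 => exact ⟨ih1.1.trans ih2.1, ih2.2.trans ih1.2⟩
    exact (both a b h).1
  constructor
  · intro h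
    have : ∀ z : P × Q, rho gs tr (x, s) z → Reach (canon gs) tr (cl gs x, s) (cl gs z.1, z.2) := by
      intro z hz
      induction hz with
      | refl => exact ReflTransGen.refl
      | @tail b c _ hbc ih =>
        rcases hbc with ⟨h1, h2⟩ | ⟨l, h1, h2⟩
        · have e1 : cl gs b.1 = cl gs c.1 := Quot.sound h1
          rw [← e1, ← h2]
          exact ih
        · refine ih.tail ⟨l, ?_, h2⟩
          obtain ⟨a, fl⟩ := l
          cases fl
          · exact ⟨c.1, b.1, rfl, rfl, hs _ _ _ h1⟩
          · exact ⟨b.1, c.1, rfl, rfl, h1⟩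
    exact this (y, s') h
  · intro h
    have : ∀ z : Cv gs × Q, Reach (canon gs) tr (cl gs x, s) z →
        ∀ w : P, cl gs w = z.1 → rho gs tr (x, s) (w, z.2) := by
      intro z hz
      induction hz with
      | refl =>
        intro w hw
        exact key x w hw.symm s
      | @tail b c _ hbc ih =>
        intro w hw
        obtain ⟨l, h1, h2⟩ := hbc
        obtain ⟨a, fl⟩ := l
        cases fl
        · obtain ⟨x', y', hx', hy', hg⟩ := h1
          -- canon c.1 a b.1
          have i1 := ih y' hy'
          have st : rstep gs tr (y', b.2) (x', c.2) := Or.inr ⟨(a, false), hs _ _ _ hg, h2⟩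
          exact (i1.tail st).trans (key x' w (hx'.trans hw.symm) c.2)
        · obtain ⟨x', y', hx', hy', hg⟩ := h1
          have i1 := ih x' hx'
          have st : rstep gs tr (x', b.2) (y', c.2) := Or.inr ⟨(a, true), hg, h2⟩
          exact (i1.tail st).trans (key y' w (hy'.trans hw.symm) c.2)
    exact this (cl gs y, s') h y rfl

end Pool.Agent.H1.SW
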